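import Pool.Agent.Y744.GP.Card

/-! Half grids on skew lines with two transversals: the points and the forms. -/

set_option autoImplicit false

open MvPolynomial
open Pool.Agent.Results.MP_586029_ag.GeprociMatroid

namespace Pool.Agent.H72G

/-! ### Products over roots of unity -/

/-- the `n`-th roots of unity -/
noncomputable def mu (n : ℕ) : Finset ℂ := Polynomial.nthRootsFinset n (1 : ℂ)

lemma mem_mu {n : ℕ} (hn : 0 < n) {z : ℂ} : z ∈ mu n ↔ z ^ n = 1 :=
  Polynomial.mem_nthRootsFinset hn 1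

lemma mu_ne_zero {n : ℕ} (hn : 0 < n) {z : ℂ} (h : z ∈ mu n) : z ≠ 0 := by
  rintro rfl
  rw [mem_mu hn, zero_pow hn.ne'] at h
  exact zero_ne_one h

lemma inv_mem_mu {n : ℕ} (hn : 0 < n) {z : ℂ} (h : z ∈ mu n) : z⁻¹ ∈ mu n := by
  rw [mem_mu hn] at h ⊢
  rw [inv_pow, h, inv_one]

lemma card_mu {n : ℕ} (hn : 0 < n) : (mu n).card = n :=
  (Complex.isPrimitiveRoot_exp n hn.ne').card_nthRootsFinset

lemma prod_sub {n : ℕ} (hn : 0 < n) (u v : ℂ) : ∏ z ∈ mu n, (u - z * v) = u ^ n - v ^ n :=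
  ((Complex.isPrimitiveRoot_exp n hn.ne').pow_sub_pow_eq_prod_sub_mul u v hn).symm

lemma prod_inv {n : ℕ} (hn : 0 < n) (f : ℂ → ℂ) :
    ∏ z ∈ mu n, f z⁻¹ = ∏ z ∈ mu n, f z := by
  refine Finset.prod_nbij' (fun z => z⁻¹) (fun z => z⁻¹) ?_ ?_ ?_ ?_ ?_
  · intro z hz
    exact inv_mem_mu hn hz
  · intro z hz
    exact inv_mem_mu hn hz
  · intro z _
    exact inv_inv z
  · intro z _
    exact inv_inv z
  · intro z _
    rfl

/-- the key identity -/
lemma prod_key {n : ℕ} (hn : 0 < n) (u v α β : ℂ) (h : u * v = α * β) :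
    ∏ z ∈ mu n, (u + v - z * α - z⁻¹ * β) = u ^ n + v ^ n - α ^ n - β ^ n := by
  by_cases hα : α = 0
  · subst hα
    have h1 : ∏ z ∈ mu n, (u + v - z * 0 - z⁻¹ * β) = (u + v) ^ n - β ^ n := by
      rw [← prod_sub hn, ← prod_inv hn (fun z => u + v - z * β)]
      refine Finset.prod_congr rfl fun z _ => ?_
      ring
    rw [h1]
    rw [zero_mul] at h
    rcases mul_eq_zero.mp h with h2 | h2
    · rw [h2, zero_pow hn.ne']
      ring
    · rw [h2, zero_pow hn.ne']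
      ring
  · have hβ : β = u * v / α := by
      field_simp
      linear_combination -h
    have h1 : ∏ z ∈ mu n, (u + v - z * α - z⁻¹ * β) =
        (∏ z ∈ mu n, (u - z * α)) * ∏ z ∈ mu n, (1 - z⁻¹ * (v / α)) := by
      rw [← Finset.prod_mul_distrib]
      refine Finset.prod_congr rfl fun z hz => ?_
      have hz0 := mu_ne_zero hn hz
      rw [hβ]
      field_simp
      ring
    rw [h1, prod_inv hn (fun z => 1 - z * (v / α)), prod_sub hn, prod_sub hn, hβ]
    have : α ^ n ≠ 0 := pow_ne_zero n hα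
    rw [div_pow, div_pow, mul_pow, one_pow]
    field_simp
    ring

lemma exists_uv (s p : ℂ) : ∃ u v : ℂ, u + v = s ∧ u * v = p := by
  obtain ⟨d, hd⟩ := IsAlgClosed.exists_pow_nat_eq (s ^ 2 - 4 * p) (n := 2) (by norm_num)
  refine ⟨(s + d) / 2, (s - d) / 2, by ring, ?_⟩
  linear_combination (-1 / 4) * hd

/-! ### The lines and points -/

/-- names of lines -/
inductive Ln : Type
  | cen : Ln
  | inf : Ln
  | ver (x : ℂ) : Ln

/-- points of the lines -/
def lp : Ln → ℂ → ℂ → V4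
  | Ln.cen, α, β => ![α, 0, -β, 0]
  | Ln.inf, α, β => ![0, α, 0, -β]
  | Ln.ver x, α, β => ![α, α * x, β * x, β]

/-- admissible lines -/
def Adm (n : ℕ) : Ln → Prop
  | Ln.cen => True
  | Ln.inf => Even n
  | Ln.ver x => x ^ n = 1

/-- Plücker coordinates -/
def pl (P X : V4) (k l : Fin 4) : ℂ := P k * X l - P l * X k

lemma pl_smul_add (P X : V4) (c κ : ℂ) (k l : Fin 4) :
    pl P (c • X + κ • P) k l = c * pl P X k l := by
  simp only [pl, Pi.add_apply, Pi.smul_apply, smul_eq_mul]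
  ring

/-- the plane spanned by a point and a line -/
def el : Ln → V4 → V4 → ℂ
  | Ln.cen, P, X => pl P X 1 3
  | Ln.inf, P, X => pl P X 0 2
  | Ln.ver x, P, X => x ^ 2 * pl P X 0 3 + pl P X 1 2 - x * (pl P X 0 2 + pl P X 1 3)

lemma el_smul_add (L : Ln) (P X : V4) (c κ : ℂ) : el L P (c • X + κ • P) = c * el L P X := by
  cases L <;> simp only [el, pl_smul_add] <;> ring

lemma el_self (L : Ln) (P : V4) (α β : ℂ) : el L P (lp L α β) = 0 := by
  cases L <;> simp [el, pl, lp] <;> ring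

lemma el_left (L : Ln) (X : V4) (α β : ℂ) : el L (lp L α β) X = 0 := by
  cases L <;> simp [el, pl, lp] <;> ring

/-- the first product -/
noncomputable def N1 (n : ℕ) (P X : V4) : ℂ :=
  ∏ z ∈ mu n, (pl P X 0 2 + pl P X 1 3 - z * pl P X 0 3 - z⁻¹ * pl P X 1 2)

/-- the second product -/
noncomputable def N2 (n : ℕ) (c : ℂ) (P X : V4) : ℂ :=
  ∏ z ∈ mu n, (pl P X 0 2 - pl P X 1 3 - z * (c * pl P X 0 1) - z⁻¹ * (-(c⁻¹ * pl P X 2 3)))

/-- the complex of degree `n` -/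
noncomputable def Gc (n : ℕ) (c : ℂ) (P X : V4) : ℂ := N1 n P X - N2 n c P X

lemma N1_smul_add {n : ℕ} (hn : 0 < n) (P X : V4) (c κ : ℂ) :
    N1 n P (c • X + κ • P) = c ^ n * N1 n P X := by
  unfold N1
  conv_rhs => rw [← card_mu hn, ← Finset.prod_const, card_mu hn, ← Finset.prod_mul_distrib]
  refine Finset.prod_congr rfl fun z _ => ?_
  simp only [pl_smul_add]
  ring

lemma N2_smul_add {n : ℕ} (hn : 0 < n) (d : ℂ) (P X : V4) (c κ : ℂ) :
    N2 n d P (c • X + κ • P) = c ^ n * N2 n d P X := by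
  unfold N2
  conv_rhs => rw [← card_mu hn, ← Finset.prod_const, card_mu hn, ← Finset.prod_mul_distrib]
  refine Finset.prod_congr rfl fun z _ => ?_
  simp only [pl_smul_add]
  ring

lemma Gc_smul_add {n : ℕ} (hn : 0 < n) (d : ℂ) (P X : V4) (c κ : ℂ) :
    Gc n d P (c • X + κ • P) = c ^ n * Gc n d P X := by
  unfold Gc
  rw [N1_smul_add hn, N2_smul_add hn]
  ring

lemma Gc_point {n : ℕ} (hn : 0 < n) {c w : ℂ} (hc : c ≠ 0) (hw : w ^ n = c ^ n) {L : Ln}
    (hL : Adm n L) (P : V4) : Gc n c P (lp L 1 w) = 0 := by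
  have hcn : c ^ n ≠ 0 := pow_ne_zero n hc
  have hw0 : w ≠ 0 := by
    rintro rfl
    rw [zero_pow hn.ne'] at hw
    exact hcn hw.symm
  cases L with
  | cen =>
    unfold Gc N1 N2
    obtain ⟨u, v, h1, h2⟩ := exists_uv (-w * P 0 - P 2) (w * P 1 * P 3)
    have e1 : ∏ z ∈ mu n, (pl P (lp Ln.cen 1 w) 0 2 + pl P (lp Ln.cen 1 w) 1 3 -
        z * pl P (lp Ln.cen 1 w) 0 3 - z⁻¹ * pl P (lp Ln.cen 1 w) 1 2) =
        u ^ n + v ^ n - (-P 3) ^ n - (-w * P 1) ^ n := by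
      rw [← prod_key hn u v (-P 3) (-w * P 1) (by rw [h2]; ring), h1]
      refine Finset.prod_congr rfl fun z _ => ?_
      simp [pl, lp]
      ring
    have e2 : ∏ z ∈ mu n, (pl P (lp Ln.cen 1 w) 0 2 - pl P (lp Ln.cen 1 w) 1 3 -
        z * (c * pl P (lp Ln.cen 1 w) 0 1) - z⁻¹ * (-(c⁻¹ * pl P (lp Ln.cen 1 w) 2 3))) =
        u ^ n + v ^ n - (-c * P 1) ^ n - (-(w / c) * P 3) ^ n := by
      rw [← prod_key hn u v (-c * P 1) (-(w / c) * P 3) (by rw [h2]; field_simp), h1]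
      refine Finset.prod_congr rfl fun z _ => ?_
      simp [pl, lp]
      ring
    rw [e1, e2]
    have e3 : (w / c) ^ n = 1 := by rw [div_pow, hw, div_self hcn]
    have e4 : (-w * P 1) ^ n = (-1) ^ n * (c ^ n * P 1 ^ n) := by
      rw [← hw, ← mul_pow, ← mul_pow]
      congr 1
      ring
    have e5 : (-P 3) ^ n = (-1) ^ n * P 3 ^ n := by
      rw [← mul_pow]
      congr 1
      ring
    have e6 : (-c * P 1) ^ n = (-1) ^ n * (c ^ n * P 1 ^ n) := by
      rw [← mul_pow, ← mul_pow]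
      congr 1
      ring
    have e7 : (-(w / c) * P 3) ^ n = (-1) ^ n * P 3 ^ n := by
      have : -(w / c) * P 3 = -1 * ((w / c) * P 3) := by ring
      rw [this, mul_pow, mul_pow, e3]
      ring
    rw [e4, e5, e6, e7]
    ring
  | inf =>
    have hev : Even n := hL
    unfold Gc N1 N2
    obtain ⟨u, v, h1, h2⟩ := exists_uv (-w * P 1 - P 3) (w * P 0 * P 2)
    have e1 : ∏ z ∈ mu n, (pl P (lp Ln.inf 1 w) 0 2 + pl P (lp Ln.inf 1 w) 1 3 -
        z * pl P (lp Ln.inf 1 w) 0 3 - z⁻¹ * pl P (lp Ln.inf 1 w) 1 2) =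
        u ^ n + v ^ n - (-w * P 0) ^ n - (-P 2) ^ n := by
      rw [← prod_key hn u v (-w * P 0) (-P 2) (by rw [h2]; ring), h1]
      refine Finset.prod_congr rfl fun z _ => ?_
      simp [pl, lp]
      ring
    have e2 : ∏ z ∈ mu n, (pl P (lp Ln.inf 1 w) 0 2 - pl P (lp Ln.inf 1 w) 1 3 -
        z * (c * pl P (lp Ln.inf 1 w) 0 1) - z⁻¹ * (-(c⁻¹ * pl P (lp Ln.inf 1 w) 2 3))) =
        (-u) ^ n + (-v) ^ n - (c * P 0) ^ n - ((w / c) * P 2) ^ n := by
      rw [← prod_key hn (-u) (-v) (c * P 0) ((w / c) * P 2) (by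
        have : -u * -v = u * v := by ring
        rw [this, h2]; field_simp)]
      refine Finset.prod_congr rfl fun z _ => ?_
      have h1' : -u + -v = w * P 1 + P 3 := by linear_combination -h1
      rw [h1']
      simp [pl, lp]
      ring
    rw [e1, e2]
    have e3 : (w / c) ^ n = 1 := by rw [div_pow, hw, div_self hcn]
    have e4 : (-w * P 0) ^ n = c ^ n * P 0 ^ n := by
      rw [mul_pow, hev.neg_pow, hw]
    have e5 : (-P 2) ^ n = P 2 ^ n := hev.neg_pow _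
    have e7 : ((w / c) * P 2) ^ n = P 2 ^ n := by
      rw [mul_pow, e3, one_mul]
    rw [e4, e5, e7, mul_pow, hev.neg_pow, hev.neg_pow]
    ring
  | ver x =>
    have hx : x ^ n = 1 := hL
    have hx0 : x ≠ 0 := by
      rintro rfl
      rw [zero_pow hn.ne'] at hx
      exact zero_ne_one hx
    unfold Gc N1 N2
    have e1 : ∏ z ∈ mu n, (pl P (lp (Ln.ver x) 1 w) 0 2 + pl P (lp (Ln.ver x) 1 w) 1 3 -
        z * pl P (lp (Ln.ver x) 1 w) 0 3 - z⁻¹ * pl P (lp (Ln.ver x) 1 w) 1 2) = 0 := by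
      apply Finset.prod_eq_zero ((mem_mu hn).mpr hx)
      simp [pl, lp]
      field_simp
      ring
    have e2 : ∏ z ∈ mu n, (pl P (lp (Ln.ver x) 1 w) 0 2 - pl P (lp (Ln.ver x) 1 w) 1 3 -
        z * (c * pl P (lp (Ln.ver x) 1 w) 0 1) -
        z⁻¹ * (-(c⁻¹ * pl P (lp (Ln.ver x) 1 w) 2 3))) = 0 := by
      have h1 : w / c ∈ mu n := by
        rw [mem_mu hn, div_pow, hw, div_self hcn]
      apply Finset.prod_eq_zero h1
      simp [pl, lp]
      field_simp
      ring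
    rw [e1, e2, sub_zero]

end Pool.Agent.H72G
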