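import Pool.Agent.H72G.Base

/-! General points. -/

set_option autoImplicit false

open MvPolynomial
open Pool.Agent.Helper26.GeprociCI
open Pool.Agent.Helper26.LineArr (lin lin_isHomogeneous)
open Pool.Agent.Results.MP_586029_ag.GeprociMatroid

namespace Pool.Agent.H72G

/-- polynomial functions -/
def PF (f : V4 → ℂ) : Prop := ∃ D : MvPolynomial (Fin 4) ℂ, ∀ P, eval P D = f P

lemma PF.const (c : ℂ) : PF fun _ => c := ⟨C c, fun _ => eval_C c⟩

lemma PF.coord (k : Fin 4) : PF fun P => P k := ⟨X k, fun _ => eval_X k⟩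

lemma PF.add {f g : V4 → ℂ} (hf : PF f) (hg : PF g) : PF fun P => f P + g P := by
  obtain ⟨D, hD⟩ := hf
  obtain ⟨E, hE⟩ := hg
  exact ⟨D + E, fun P => by rw [map_add, hD, hE]⟩

lemma PF.sub {f g : V4 → ℂ} (hf : PF f) (hg : PF g) : PF fun P => f P - g P := by
  obtain ⟨D, hD⟩ := hf
  obtain ⟨E, hE⟩ := hg
  exact ⟨D - E, fun P => by rw [map_sub, hD, hE]⟩

lemma PF.mul {f g : V4 → ℂ} (hf : PF f) (hg : PF g) : PF fun P => f P * g P := by
  obtain ⟨D, hD⟩ := hf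
  obtain ⟨E, hE⟩ := hg
  exact ⟨D * E, fun P => by rw [map_mul, hD, hE]⟩

lemma PF.neg {f : V4 → ℂ} (hf : PF f) : PF fun P => -f P := by
  obtain ⟨D, hD⟩ := hf
  exact ⟨-D, fun P => by rw [map_neg, hD]⟩

lemma PF.pow {f : V4 → ℂ} (hf : PF f) (k : ℕ) : PF fun P => f P ^ k := by
  obtain ⟨D, hD⟩ := hf
  exact ⟨D ^ k, fun P => by rw [map_pow, hD]⟩

lemma PF.prod {ι : Type*} (s : Finset ι) {f : ι → V4 → ℂ} (h : ∀ i ∈ s, PF (f i)) :
    PF fun P => ∏ i ∈ s, f i P := by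
  classical
  induction s using Finset.induction_on with
  | empty => simpa using PF.const 1
  | insert i s hi ih =>
    have h1 := (h i (Finset.mem_insert_self i s)).mul
      (ih fun j hj => h j (Finset.mem_insert_of_mem hj))
    simpa [Finset.prod_insert hi] using h1

lemma PF.pl (X : V4) (k l : Fin 4) : PF fun P => pl P X k l := by
  unfold H72G.pl
  exact ((PF.coord k).mul (PF.const _)).sub ((PF.coord l).mul (PF.const _))

lemma PF.el (L : Ln) (X : V4) : PF fun P => el L P X := by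
  cases L with
  | cen => exact PF.pl X 1 3
  | inf => exact PF.pl X 0 2
  | ver x =>
    exact (((PF.const (x ^ 2)).mul (PF.pl X 0 3)).add (PF.pl X 1 2)).sub
      ((PF.const x).mul ((PF.pl X 0 2).add (PF.pl X 1 3)))

lemma PF.Gc (n : ℕ) (c : ℂ) (X : V4) : PF fun P => Gc n c P X := by
  unfold H72G.Gc N1 N2
  refine PF.sub (PF.prod _ fun z _ => ?_) (PF.prod _ fun z _ => ?_)
  · exact (((PF.pl X 0 2).add (PF.pl X 1 3)).sub ((PF.const z).mul (PF.pl X 0 3))).sub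
      ((PF.const z⁻¹).mul (PF.pl X 1 2))
  · exact (((PF.pl X 0 2).sub (PF.pl X 1 3)).sub ((PF.const z).mul
      ((PF.const c).mul (PF.pl X 0 1)))).sub
      ((PF.const z⁻¹).mul (((PF.const c⁻¹).mul (PF.pl X 2 3)).neg))

/-- a property of general points -/
def Gen (p : V4 → Prop) : Prop :=
  ∃ D : MvPolynomial (Fin 4) ℂ, D ≠ 0 ∧ ∀ P, eval P D ≠ 0 → p P

lemma Gen.of_PF {f : V4 → ℂ} (hf : PF f) {P0 : V4} (h : f P0 ≠ 0) : Gen fun P => f P ≠ 0 := by
  obtain ⟨D, hD⟩ := hf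
  refine ⟨D, ?_, ?_⟩
  · rintro rfl
    rw [← hD, map_zero] at h
    exact h rfl
  · intro P hP
    rwa [hD] at hP

lemma Gen.and {p q : V4 → Prop} (hp : Gen p) (hq : Gen q) : Gen fun P => p P ∧ q P := by
  obtain ⟨D, hD0, hD⟩ := hp
  obtain ⟨E, hE0, hE⟩ := hq
  refine ⟨D * E, mul_ne_zero hD0 hE0, fun P hP => ?_⟩
  rw [map_mul] at hP
  exact ⟨hD P (left_ne_zero_of_mul hP), hE P (right_ne_zero_of_mul hP)⟩

lemma Gen.forall {ι : Type*} [Fintype ι] {p : ι → V4 → Prop} (h : ∀ i, Gen (p i)) :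
    Gen fun P => ∀ i, p i P := by
  choose D hD0 hD using h
  refine ⟨∏ i, D i, Finset.prod_ne_zero_iff.mpr fun i _ => hD0 i, fun P hP i => ?_⟩
  rw [map_prod, Finset.prod_ne_zero_iff] at hP
  exact hD i P (hP i (Finset.mem_univ i))

lemma Gen.imp {p q : V4 → Prop} (hp : Gen p) (h : ∀ P, p P → q P) : Gen q := by
  obtain ⟨D, hD0, hD⟩ := hp
  exact ⟨D, hD0, fun P hP => h P (hD P hP)⟩

lemma Gen.of_forall {p : V4 → Prop} (h : ∀ P, p P) : Gen p :=
  ⟨1, one_ne_zero, fun P _ => h P⟩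

/-! ### The conditions -/

lemma gen_el {n : ℕ} (hn : 0 < n) {L L' : Ln} (hL : Adm n L) (hL' : Adm n L') (h : L ≠ L')
    (w : ℂ) : Gen fun P => el L' P (lp L 1 w) ≠ 0 := by
  have key : ∀ x : ℂ, x ^ n = 1 → x ≠ 0 := by
    rintro x hx rfl
    rw [zero_pow hn.ne'] at hx
    exact zero_ne_one hx
  cases L with
  | cen =>
    cases L' with
    | cen => exact absurd rfl h
    | inf =>
      apply Gen.of_PF (PF.el _ _) (P0 := ![0, 0, 1, 0])
      simp [el, pl, lp]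
    | ver y =>
      apply Gen.of_PF (PF.el _ _) (P0 := ![0, 0, 1, 0])
      have := key y hL'
      simp [el, pl, lp, this]
  | inf =>
    cases L' with
    | cen =>
      apply Gen.of_PF (PF.el _ _) (P0 := ![0, 0, 0, 1])
      simp [el, pl, lp]
    | inf => exact absurd rfl h
    | ver y =>
      apply Gen.of_PF (PF.el _ _) (P0 := ![0, 0, 1, 0])
      simp [el, pl, lp]
  | ver x =>
    cases L' with
    | cen =>
      apply Gen.of_PF (PF.el _ _) (P0 := ![0, 0, 0, 1])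
      have := key x hL
      simp [el, pl, lp, this]
    | inf =>
      apply Gen.of_PF (PF.el _ _) (P0 := ![0, 0, 1, 0])
      simp [el, pl, lp]
    | ver y =>
      apply Gen.of_PF (PF.el _ _) (P0 := ![0, 0, 1, 0])
      have h1 : x ≠ y := by
        rintro rfl
        exact h rfl
      simp [el, pl, lp]
      intro h2
      exact h1 (by linear_combination -h2)

lemma gen_Gc {n : ℕ} (hn : 0 < n) {L : Ln} {c : ℂ} (hc : c ≠ 0) :
    Gen fun P => Gc n c P (lp L 0 1) ≠ 0 := by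
  have h1 : (1 : ℂ) ∈ mu n := (mem_mu hn).mpr (one_pow n)
  cases L with
  | cen =>
    apply Gen.of_PF (PF.Gc _ _ _) (P0 := ![0, 0, 0, 1])
    have e1 : N1 n ![0, 0, 0, 1] (lp Ln.cen 0 1) = 0 := by
      apply Finset.prod_eq_zero h1
      simp [pl, lp]
    unfold Gc
    rw [e1, zero_sub, neg_ne_zero]
    refine Finset.prod_ne_zero_iff.mpr fun z hz => ?_
    have := mu_ne_zero hn hz
    simp [pl, lp, this, hc]
  | inf =>
    apply Gen.of_PF (PF.Gc _ _ _) (P0 := ![0, 0, 1, 0])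
    have e1 : N1 n ![0, 0, 1, 0] (lp Ln.inf 0 1) = 0 := by
      apply Finset.prod_eq_zero h1
      simp [pl, lp]
    unfold Gc
    rw [e1, zero_sub, neg_ne_zero]
    refine Finset.prod_ne_zero_iff.mpr fun z hz => ?_
    have := mu_ne_zero hn hz
    simp [pl, lp, this, hc]
  | ver x =>
    apply Gen.of_PF (PF.Gc _ _ _) (P0 := ![0, 0, 1, 0])
    have e1 : N1 n ![0, 0, 1, 0] (lp (Ln.ver x) 0 1) = 0 := by
      apply Finset.prod_eq_zero h1
      simp [pl, lp]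
    unfold Gc
    rw [e1, zero_sub, neg_ne_zero]
    refine Finset.prod_ne_zero_iff.mpr fun z hz => ?_
    have := mu_ne_zero hn hz
    simp [pl, lp, this, hc]

lemma gen_pl {L : Ln} : Gen fun P => pl P (lp L 0 1) 2 3 ≠ 0 := by
  cases L with
  | cen =>
    apply Gen.of_PF (PF.pl _ 2 3) (P0 := ![0, 0, 0, 1])
    simp [pl, lp]
  | inf =>
    apply Gen.of_PF (PF.pl _ 2 3) (P0 := ![0, 0, 1, 0])
    simp [pl, lp]
  | ver x =>
    apply Gen.of_PF (PF.pl _ 2 3) (P0 := ![0, 0, 1, 0])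
    simp [pl, lp]

/-! ### Forms on the plane -/

/-- forms as functions -/
def HF (d : ℕ) (f : V3 → ℂ) : Prop := ∃ G : R3, G.IsHomogeneous d ∧ ∀ y, eval y G = f y

lemma HF.mul {d e : ℕ} {f g : V3 → ℂ} (hf : HF d f) (hg : HF e g) :
    HF (d + e) fun y => f y * g y := by
  obtain ⟨D, hD, hD'⟩ := hf
  obtain ⟨E, hE, hE'⟩ := hg
  exact ⟨D * E, hD.mul hE, fun y => by rw [map_mul, hD', hE']⟩

lemma HF.sub {d : ℕ} {f g : V3 → ℂ} (hf : HF d f) (hg : HF d g) : HF d fun y => f y - g y := by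
  obtain ⟨D, hD, hD'⟩ := hf
  obtain ⟨E, hE, hE'⟩ := hg
  exact ⟨D - E, hD.sub hE, fun y => by rw [map_sub, hD', hE']⟩

lemma HF.add {d : ℕ} {f g : V3 → ℂ} (hf : HF d f) (hg : HF d g) : HF d fun y => f y + g y := by
  obtain ⟨D, hD, hD'⟩ := hf
  obtain ⟨E, hE, hE'⟩ := hg
  exact ⟨D + E, hD.add hE, fun y => by rw [map_add, hD', hE']⟩

lemma HF.smul {d : ℕ} {f : V3 → ℂ} (c : ℂ) (hf : HF d f) : HF d fun y => c * f y := by
  obtain ⟨D, hD, hD'⟩ := hf
  exact ⟨C c * D, hD.C_mul c, fun y => by rw [map_mul, hD', eval_C]⟩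

lemma HF.one : HF 0 fun _ => 1 := ⟨1, isHomogeneous_one _ _, fun _ => map_one _⟩

lemma HF.prod {ι : Type*} (s : Finset ι) {d : ℕ} {f : ι → V3 → ℂ} (h : ∀ i ∈ s, HF d (f i)) :
    HF (s.card * d) fun y => ∏ i ∈ s, f i y := by
  classical
  induction s using Finset.induction_on with
  | empty => simpa using HF.one
  | insert i s hi ih =>
    have h1 := (h i (Finset.mem_insert_self i s)).mul
      (ih fun j hj => h j (Finset.mem_insert_of_mem hj))
    have h2 : (insert i s).card * d = d + s.card * d := by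
      rw [Finset.card_insert_of_notMem hi]
      ring
    rw [h2]
    simpa [Finset.prod_insert hi] using h1

lemma HF.coord (σ : V3 →ₗ[ℂ] V4) (k : Fin 4) : HF 1 fun y => σ y k :=
  ⟨xs σ k, xs_hom σ k, fun y => eval_xs σ y k⟩

lemma HF.pl (P : V4) (σ : V3 →ₗ[ℂ] V4) (k l : Fin 4) : HF 1 fun y => pl P (σ y) k l :=
  ((HF.coord σ l).smul (P k)).sub ((HF.coord σ k).smul (P l))

lemma HF.el (L : Ln) (P : V4) (σ : V3 →ₗ[ℂ] V4) : HF 1 fun y => el L P (σ y) := by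
  cases L with
  | cen => exact HF.pl P σ 1 3
  | inf => exact HF.pl P σ 0 2
  | ver x =>
    exact (((HF.pl P σ 0 3).smul (x ^ 2)).add (HF.pl P σ 1 2)).sub
      (((HF.pl P σ 0 2).add (HF.pl P σ 1 3)).smul x)

lemma HF.Gc {n : ℕ} (hn : 0 < n) (c : ℂ) (P : V4) (σ : V3 →ₗ[ℂ] V4) :
    HF n fun y => Gc n c P (σ y) := by
  have key : ∀ f : ℂ → V3 → ℂ, (∀ z ∈ mu n, HF 1 (f z)) → HF n fun y => ∏ z ∈ mu n, f z y := by
    intro f hf
    have h := HF.prod (mu n) hf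
    rwa [card_mu hn, mul_one] at h
  unfold H72G.Gc N1 N2
  refine HF.sub (key _ fun z _ => ?_) (key _ fun z _ => ?_)
  · exact (((HF.pl P σ 0 2).add (HF.pl P σ 1 3)).sub ((HF.pl P σ 0 3).smul z)).sub
      ((HF.pl P σ 1 2).smul z⁻¹)
  · have h1 : HF 1 fun y => -(c⁻¹ * H72G.pl P (σ y) 2 3) := by
      have := ((HF.pl P σ 2 3).smul c⁻¹).smul (-1)
      simpa using this
    exact (((HF.pl P σ 0 2).sub (HF.pl P σ 1 3)).sub (((HF.pl P σ 0 1).smul c).smul z)).sub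
      (h1.smul z⁻¹)

end Pool.Agent.H72G
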