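import Pool.Agent.H72G.Gen

/-! The sets are geproci. -/

set_option autoImplicit false

open MvPolynomial
open Pool.Agent.Helper26.GeprociCI
open Pool.Agent.Helper26.LineArr (lin lin_isHomogeneous)
open Pool.Agent.Results.MP_586029_ag.GeprociMatroid

namespace Pool.Agent.H72G

lemma lp_ne_zero (L : Ln) (w : ℂ) : lp L 1 w ≠ 0 := by
  intro h
  cases L with
  | cen =>
    have := congrFun h 0
    simp [lp] at this
  | inf =>
    have := congrFun h 1
    simp [lp] at this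
  | ver x =>
    have := congrFun h 0
    simp [lp] at this

lemma lp_eq_smul {L : Ln} {w w' c : ℂ} (h : lp L 1 w = c • lp L 1 w') : c = 1 ∧ w = w' := by
  have e0 := congrFun h 0
  have e1 := congrFun h 1
  have e2 := congrFun h 2
  have e3 := congrFun h 3
  cases L with
  | cen =>
    simp [lp] at e0 e2
    exact ⟨e0.symm, by rw [e2, ← e0, one_mul]⟩
  | inf =>
    simp [lp] at e1 e3
    exact ⟨e1.symm, by rw [e3, ← e1, one_mul]⟩
  | ver x =>
    simp [lp] at e0 e3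
    exact ⟨e0.symm, by rw [e3, ← e0, one_mul]⟩

lemma lp_sub (L : Ln) (w w' c : ℂ) : lp L 1 w - c • lp L 1 w' = lp L (1 - c) (w - c * w') := by
  cases L <;> funext r <;> fin_cases r <;> simp [lp] <;> ring

lemma smul_lp (L : Ln) (α β c : ℂ) : c • lp L α β = lp L (c * α) (c * β) := by
  cases L <;> funext r <;> fin_cases r <;> simp [lp] <;> ring

lemma ne_line {n : ℕ} (hn : 0 < n) {L L' : Ln} (hL : Adm n L) (hL' : Adm n L') (h : L ≠ L')
    (w w' c : ℂ) : lp L 1 w ≠ c • lp L' 1 w' := by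
  intro h1
  obtain ⟨D, hD0, hD⟩ := gen_el hn hL hL' h w
  have h2 : ∀ P, eval P D = 0 := by
    intro P
    by_contra h3
    apply hD P h3
    rw [h1, smul_lp, el_self]
  exact hD0 (MvPolynomial.funext fun P => by rw [h2, map_zero])

/-- the primitive root -/
noncomputable def zt (n : ℕ) : ℂ := Complex.exp (2 * Real.pi * Complex.I / n)

lemma zt_prim {n : ℕ} (hn : 0 < n) : IsPrimitiveRoot (zt n) n :=
  Complex.isPrimitiveRoot_exp n hn.ne'

/-- the parameters of the points of a line -/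
noncomputable def ws (n : ℕ) (t : ℂ) (l : ℕ) : ℂ :=
  if l < n then zt n ^ l else if l < 2 * n then t * zt n ^ l else 0

lemma zt_pow {n : ℕ} (hn : 0 < n) (l : ℕ) : (zt n ^ l) ^ n = 1 := by
  rw [← pow_mul, mul_comm, pow_mul, (zt_prim hn).pow_eq_one, one_pow]

lemma ws_cases {n : ℕ} (hn : 0 < n) (t : ℂ) (l : ℕ) :
    (l < n ∧ ws n t l ^ n = 1) ∨ (n ≤ l ∧ l < 2 * n ∧ ws n t l ^ n = t ^ n) ∨
      (2 * n ≤ l ∧ ws n t l = 0) := by
  unfold ws
  by_cases h1 : l < n
  · left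
    rw [if_pos h1]
    exact ⟨h1, zt_pow hn l⟩
  · right
    rw [if_neg h1]
    by_cases h2 : l < 2 * n
    · left
      rw [if_pos h2, mul_pow, zt_pow hn, mul_one]
      exact ⟨by omega, h2, rfl⟩
    · right
      rw [if_neg h2]
      exact ⟨by omega, rfl⟩

lemma ws_inj {n : ℕ} (hn : 0 < n) {t : ℂ} (ht : t ≠ 0) (ht1 : t ^ n ≠ 1) {l l' : ℕ}
    (hl : l < 2 * n + 1) (hl' : l' < 2 * n + 1) (h : ws n t l = ws n t l') : l = l' := by
  have htn : t ^ n ≠ 0 := pow_ne_zero n ht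
  rcases ws_cases hn t l with ⟨a1, a2⟩ | ⟨a1, a2, a3⟩ | ⟨a1, a2⟩ <;>
    rcases ws_cases hn t l' with ⟨b1, b2⟩ | ⟨b1, b2, b3⟩ | ⟨b1, b2⟩
  · unfold ws at h
    rw [if_pos a1, if_pos b1] at h
    exact (zt_prim hn).pow_inj a1 b1 h
  · rw [h, b3] at a2
    exact absurd a2 ht1
  · rw [h, b2, zero_pow hn.ne'] at a2
    exact absurd a2 zero_ne_one
  · rw [h, b2] at a3
    exact absurd a3.symm ht1
  · unfold ws at h
    rw [if_neg (by omega), if_pos a2, if_neg (by omega), if_pos b2] at h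
    have h1 := mul_left_cancel₀ ht h
    have e1 : zt n ^ l = zt n ^ (l - n) := by
      have : l = n + (l - n) := by omega
      conv_lhs => rw [this, pow_add, (zt_prim hn).pow_eq_one, one_mul]
    have e2 : zt n ^ l' = zt n ^ (l' - n) := by
      have : l' = n + (l' - n) := by omega
      conv_lhs => rw [this, pow_add, (zt_prim hn).pow_eq_one, one_mul]
    rw [e1, e2] at h1
    have := (zt_prim hn).pow_inj (by omega) (by omega) h1
    omega
  · rw [h, b2, zero_pow hn.ne'] at a3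
    exact absurd a3.symm htn
  · rw [← h, a2, zero_pow hn.ne'] at b2
    exact absurd b2 zero_ne_one
  · rw [← h, a2, zero_pow hn.ne'] at b3
    exact absurd b3.symm htn
  · omega

/-- The set of points. -/
noncomputable def Zp (n : ℕ) {a : ℕ} (b : ℕ) (Λ : Fin a → Ln) (t : ℂ) : Set P3 :=
  Set.range fun x : Fin a × Fin b =>
    Projectivization.mk ℂ (lp (Λ x.1) 1 (ws n t x.2)) (lp_ne_zero _ _)

variable {n a b : ℕ} {Λ : Fin a → Ln} {t : ℂ}

lemma mem_Zp {x : V4} (hx : x ≠ 0) (h : Projectivization.mk ℂ x hx ∈ Zp n b Λ t) :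
    ∃ (i : Fin a) (l : Fin b), ∃ c : ℂ, c ≠ 0 ∧ x = c • lp (Λ i) 1 (ws n t l) := by
  obtain ⟨⟨i, l⟩, hij⟩ := h
  rw [Projectivization.mk_eq_mk_iff'] at hij
  obtain ⟨c, hc⟩ := hij
  simp only at hc
  have hc0 : c ≠ 0 := by
    rintro rfl
    rw [zero_smul] at hc
    exact lp_ne_zero _ _ hc.symm
  refine ⟨i, l, c⁻¹, inv_ne_zero hc0, ?_⟩
  rw [← hc, smul_smul, inv_mul_cancel₀ hc0, one_smul]

lemma smul_mem_Zp {c : ℂ} (i : Fin a) (l : Fin b) (hc : c • lp (Λ i) 1 (ws n t l) ≠ 0) :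
    Projectivization.mk ℂ (c • lp (Λ i) 1 (ws n t l)) hc ∈ Zp n b Λ t := by
  refine ⟨(i, l), ?_⟩
  rw [Projectivization.mk_eq_mk_iff']
  refine ⟨c⁻¹, ?_⟩
  have hc0 : c ≠ 0 := by
    rintro rfl
    exact hc (zero_smul _ _)
  simp only
  rw [smul_smul, inv_mul_cancel₀ hc0, one_smul]

lemma mk_inj (hn : 0 < n) (hb : b ≤ 2 * n + 1) (ht : t ≠ 0) (ht1 : t ^ n ≠ 1)
    (hΛ : Function.Injective Λ) (hA : ∀ i, Adm n (Λ i)) :
    Function.Injective (fun x : Fin a × Fin b =>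
      Projectivization.mk ℂ (lp (Λ x.1) 1 (ws n t x.2)) (lp_ne_zero _ _)) := by
  rintro ⟨i, l⟩ ⟨i', l'⟩ h
  simp only at h
  rw [Projectivization.mk_eq_mk_iff'] at h
  obtain ⟨c, hc⟩ := h
  by_cases hii : i = i'
  · subst hii
    obtain ⟨-, h1⟩ := lp_eq_smul hc.symm
    have h2 := ws_inj hn ht ht1 (by omega) (by omega) h1
    rw [Fin.ext h2]
  · exact absurd hc.symm (ne_line hn (hA i) (hA i') (fun h => hii (hΛ h)) _ _ _)

lemma ncard_Zp (hn : 0 < n) (hb : b ≤ 2 * n + 1) (ht : t ≠ 0) (ht1 : t ^ n ≠ 1)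
    (hΛ : Function.Injective Λ) (hA : ∀ i, Adm n (Λ i)) : (Zp n b Λ t).ncard = a * b := by
  unfold Zp
  rw [← Set.image_univ, Set.ncard_image_of_injective _ (mk_inj hn hb ht ht1 hΛ hA),
    Set.ncard_univ, Nat.card_eq_fintype_card, Fintype.card_prod, Fintype.card_fin,
    Fintype.card_fin]

/-- The complex of degree `2 n + ε`. -/
noncomputable def GG (n ε : ℕ) (t : ℂ) (P X : V4) : ℂ :=
  Gc n 1 P X * Gc n t P X * pl P X 2 3 ^ ε

lemma GG_smul_add (hn : 0 < n) (ε : ℕ) (t : ℂ) (P X : V4) (c κ : ℂ) :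
    GG n ε t P (c • X + κ • P) = c ^ (2 * n + ε) * GG n ε t P X := by
  unfold GG
  rw [Gc_smul_add hn, Gc_smul_add hn, pl_smul_add]
  ring

lemma GG_point (hn : 0 < n) {ε : ℕ} (ht : t ≠ 0) {L : Ln} (hL : Adm n L) {l : ℕ}
    (hl : l < 2 * n + ε) (P : V4) : GG n ε t P (lp L 1 (ws n t l)) = 0 := by
  unfold GG
  rcases ws_cases hn t l with ⟨a1, a2⟩ | ⟨a1, a2, a3⟩ | ⟨a1, a2⟩
  · rw [Gc_point hn one_ne_zero (by rw [a2, one_pow]) hL, zero_mul, zero_mul]
  · rw [Gc_point hn ht a3 hL, mul_zero, zero_mul]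
  · rw [a2]
    have h1 : pl P (lp L 1 0) 2 3 = 0 := by
      cases L <;> simp [pl, lp]
    rw [h1, zero_pow (by omega), mul_zero]

lemma HF_GG (hn : 0 < n) (ε : ℕ) (t : ℂ) (P : V4) (σ : V3 →ₗ[ℂ] V4) :
    HF (2 * n + ε) fun y => GG n ε t P (σ y) := by
  have h1 : HF ε fun y => pl P (σ y) 2 3 ^ ε := by
    have h := HF.prod (Finset.range ε) (f := fun _ y => pl P (σ y) 2 3)
      (fun _ _ => HF.pl P σ 2 3)
    simpa using h
  have h2 := ((HF.Gc hn 1 P σ).mul (HF.Gc hn t P σ)).mul h1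
  have e : n + n + ε = 2 * n + ε := by ring
  rwa [e] at h2

/-- General points. -/
def IsGen (n ε : ℕ) {a : ℕ} (Λ : Fin a → Ln) (t : ℂ) (P : V4) : Prop :=
  (∀ (i k : Fin a) (l : Fin (2 * n + ε)), i ≠ k → el (Λ k) P (lp (Λ i) 1 (ws n t l)) ≠ 0) ∧
    ∀ i : Fin a, GG n ε t P (lp (Λ i) 0 1) ≠ 0

lemma gen_isGen (hn : 0 < n) (ε : ℕ) (ht : t ≠ 0) (hΛ : Function.Injective Λ)
    (hA : ∀ i, Adm n (Λ i)) : Gen (IsGen n ε Λ t) := by
  refine Gen.and ?_ ?_
  · refine Gen.forall fun i => Gen.forall fun k => Gen.forall fun l => ?_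
    by_cases h : i = k
    · exact Gen.of_forall fun P h' => absurd h h'
    · refine (gen_el hn (hA i) (hA k) (fun h' => h (hΛ h')) _).imp fun P hP _ => hP
  · refine Gen.forall fun i => ?_
    refine ((gen_Gc (L := Λ i) hn one_ne_zero).and
      ((gen_Gc (L := Λ i) hn ht).and (gen_pl (L := Λ i)))).imp fun P hP => ?_
    exact mul_ne_zero (mul_ne_zero hP.1 hP.2.1) (pow_ne_zero _ hP.2.2)

lemma el_linear (L : Ln) (P : V4) (σ : V3 →ₗ[ℂ] V4) (y : V3) :
    ∑ s, el L P (σ (Pi.single s 1)) * y s = el L P (σ y) := by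
  have h1 : σ y = ∑ s, y s • σ (Pi.single s 1) := by
    conv_lhs => rw [sum_single y]
    rw [map_sum]
    simp only [map_smul]
  rw [h1]
  simp only [Fin.sum_univ_three]
  cases L <;> simp [el, pl] <;> ring

/-- complete intersections of given degrees -/
def CI (a b : ℕ) (I : Ideal R3) : Prop :=
  ∃ F G : R3, F.IsHomogeneous a ∧ G.IsHomogeneous b ∧
    RingTheory.Sequence.IsRegular R3 [F, G] ∧ I = Ideal.span {F, G}

lemma geproci (hn : 0 < n) {ε : ℕ} (ht : t ≠ 0) (hε : ε ≤ 1) (ht1 : t ^ n ≠ 1)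
    (ha : 2 ≤ a) (hA : ∀ i, Adm n (Λ i)) {P : V4} (hP : IsGen n ε Λ t P)
    {π : V4 →ₗ[ℂ] V3} (hπ : LinearMap.ker π = Submodule.span ℂ {P}) :
    CI a (2 * n + ε) (imageIdeal (Zp n (2 * n + ε) Λ t) π) := by
  obtain ⟨gen1, gen2⟩ := hP
  have hsurj : LinearMap.range π = ⊤ := by
    apply Submodule.eq_top_of_finrank_eq
    have h1 := LinearMap.finrank_range_add_finrank_ker π
    have h2 : Module.finrank ℂ (LinearMap.ker π) ≤ 1 := by
      rw [hπ]
      exact (finrank_span_le_card ({P} : Set V4)).trans (by simp)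
    have h3 : Module.finrank ℂ (LinearMap.range π) ≤ Module.finrank ℂ V3 :=
      Submodule.finrank_le _
    have h4 : Module.finrank ℂ V4 = 4 := by simp
    have h5 : Module.finrank ℂ V3 = 3 := by simp
    omega
  obtain ⟨σ, hσ⟩ := LinearMap.exists_rightInverse_of_surjective π hsurj
  have hπσ : ∀ y, π (σ y) = y := fun y => by
    have := LinearMap.congr_fun hσ y
    simpa using this
  have hσπ : ∀ x, ∃ κ : ℂ, σ (π x) = x + κ • P := by
    intro x
    have h1 : σ (π x) - x ∈ LinearMap.ker π := by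
      rw [LinearMap.mem_ker, map_sub, hπσ, sub_self]
    rw [hπ, Submodule.mem_span_singleton] at h1
    obtain ⟨κ, hκ⟩ := h1
    exact ⟨κ, by rw [hκ]; abel⟩
  have hellx : ∀ x L, ∑ r, el L P (σ (Pi.single r 1)) * π x r = el L P x := by
    intro x L
    rw [el_linear]
    obtain ⟨κ, hκ⟩ := hσπ x
    have := el_smul_add L P x 1 κ
    rw [one_smul, one_mul] at this
    rw [hκ, this]
  obtain ⟨G, hGhom, hG⟩ := HF_GG hn ε t P σ
  have hGGx : ∀ x (c : ℂ), eval (c • π x) G = c ^ (2 * n + ε) * GG n ε t P x := by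
    intro x c
    rw [hG]
    change GG n ε t P (σ (c • π x)) = _
    rw [map_smul]
    obtain ⟨κ, hκ⟩ := hσπ x
    rw [hκ, smul_add, smul_smul, GG_smul_add hn]
  set A : Fin a → V3 := fun i r => el (Λ i) P (σ (Pi.single r 1)) with hA'
  set w : Fin a → Fin (2 * n + ε) → V3 := fun i l => π (lp (Λ i) 1 (ws n t l)) with hw
  let l0 : Fin (2 * n + ε) := ⟨0, by omega⟩
  let i0 : Fin a := ⟨0, by omega⟩
  have hoff : ∀ i k l, i ≠ k → ∑ r, A k r * w i l r ≠ 0 := by
    intro i k l hik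
    rw [hellx]
    exact gen1 i k l hik
  have haw : ∀ i l, ∑ r, A i r * w i l r = 0 := by
    intro i l
    rw [hellx, el_self]
  have hne : ∀ i : Fin a, ∃ k, i ≠ k := by
    intro i
    have : Nontrivial (Fin a) := Fin.nontrivial_iff_two_le.mpr ha
    obtain ⟨k, hk⟩ := exists_ne i
    exact ⟨k, hk.symm⟩
  have H : Data A w G := by
    refine ⟨?_, ?_, haw, hoff, ?_, hGhom, ?_, ?_⟩
    · intro i h0
      obtain ⟨k, hk⟩ := hne i
      apply hoff k i l0 hk.symm
      rw [h0]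
      simp
    · intro i j h0
      obtain ⟨k, hk⟩ := hne i
      apply hoff i k j hk
      rw [h0]
      simp
    · intro i l l' hll c hc
      have h1 : lp (Λ i) 1 (ws n t l) - c • lp (Λ i) 1 (ws n t l') ∈ LinearMap.ker π := by
        rw [LinearMap.mem_ker, map_sub, map_smul]
        change w i l - c • w i l' = 0
        rw [hc, sub_self]
      rw [hπ, Submodule.mem_span_singleton] at h1
      obtain ⟨κ, hκ⟩ := h1
      by_cases hκ0 : κ = 0
      · rw [hκ0, zero_smul] at hκ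
        obtain ⟨-, h2⟩ := lp_eq_smul (sub_eq_zero.mp hκ.symm)
        exact hll (Fin.ext (ws_inj hn ht ht1 (by omega) (by omega) h2))
      · obtain ⟨k, hk⟩ := hne i
        apply gen1 k i l hk.symm
        have hPl : P = lp (Λ i) (κ⁻¹ * (1 - c)) (κ⁻¹ * (ws n t l - c * ws n t l')) := by
          rw [← smul_lp, ← lp_sub, ← hκ, smul_smul, inv_mul_cancel₀ hκ0, one_smul]
        rw [hPl, el_left]
    · intro i l c _
      rw [hGGx, GG_point hn ht (hA i) l.2, mul_zero]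
    · intro i hdvd
      obtain ⟨p, hp⟩ := hdvd
      have h1 := congrArg (eval (π (lp (Λ i) 0 1))) hp
      rw [map_mul, eval_lin, hellx, el_self, zero_mul] at h1
      have h2 := hGGx (lp (Λ i) 0 1) 1
      rw [one_smul, h1, one_pow, one_mul] at h2
      exact gen2 i h2.symm
  refine ⟨∏ i, lin (A i), G, ?_, hGhom, isRegular_of_data H i0 l0, ?_⟩
  · have := IsHomogeneous.prod Finset.univ (fun i => lin (A i)) (fun _ => 1)
      (fun i _ => lin_isHomogeneous _)
    simpa using this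
  · apply le_antisymm
    · intro F hF
      apply mem_span_of_data H Finset.univ F
      intro i _ l c hc
      have hc0 : c • lp (Λ i) 1 (ws n t l) ≠ 0 := smul_ne_zero hc (lp_ne_zero _ _)
      have := hF (c • lp (Λ i) 1 (ws n t l)) hc0 (smul_mem_Zp i l hc0)
      rw [map_smul] at this
      exact this
    · intro F hF
      rw [Ideal.mem_span_pair] at hF
      obtain ⟨α, β, rfl⟩ := hF
      intro x hx hxZ
      obtain ⟨i, l, c, hc, rfl⟩ := mem_Zp hx hxZ
      have h1 : eval (π (c • lp (Λ i) 1 (ws n t l))) (∏ i, lin (A i)) = 0 := by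
        rw [map_prod]
        apply Finset.prod_eq_zero (Finset.mem_univ i)
        rw [eval_lin, hellx, smul_lp, el_self]
      have h2 : eval (π (c • lp (Λ i) 1 (ws n t l))) G = 0 := by
        rw [map_smul, hGGx, GG_point hn ht (hA i) l.2, mul_zero]
      rw [map_add, map_mul, map_mul, h1, h2]
      ring

end Pool.Agent.H72G
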