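import Pool.Agent.H72G.Main

/-! Non-triviality and projective equivalence. -/

set_option autoImplicit false

open Cardinal
open Pool.Agent.Results.MP_586029_ag.GeprociMatroid

namespace Pool.Agent.H72G

variable {n a b : ℕ} {Λ : Fin a → Ln} {t : ℂ}

lemma quad3 {A B C w1 w2 w3 : ℂ} (h12 : w1 ≠ w2) (h13 : w1 ≠ w3) (h23 : w2 ≠ w3)
    (e1 : A + w1 * B + w1 ^ 2 * C = 0) (e2 : A + w2 * B + w2 ^ 2 * C = 0)
    (e3 : A + w3 * B + w3 ^ 2 * C = 0) : A = 0 ∧ B = 0 ∧ C = 0 := by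
  have d12 : w1 - w2 ≠ 0 := sub_ne_zero.mpr h12
  have d13 : w1 - w3 ≠ 0 := sub_ne_zero.mpr h13
  have d23 : w2 - w3 ≠ 0 := sub_ne_zero.mpr h23
  have f1 : B + (w1 + w2) * C = 0 := by
    apply mul_left_cancel₀ d12
    linear_combination e1 - e2
  have f2 : B + (w1 + w3) * C = 0 := by
    apply mul_left_cancel₀ d13
    linear_combination e1 - e3
  have hC : C = 0 := by
    apply mul_left_cancel₀ d23
    linear_combination f1 - f2
  have hB : B = 0 := by
    rw [hC] at f1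
    linear_combination f1
  refine ⟨?_, hB, hC⟩
  rw [hB, hC] at e1
  linear_combination e1

/-- the configurations of lines used -/
structure Good (n : ℕ) {a : ℕ} (Λ : Fin a → Ln) : Prop where
  inj : Function.Injective Λ
  adm : ∀ i, Adm n (Λ i)
  cen : ∃ i, Λ i = Ln.cen
  ver : ∃ (x y z : ℂ) (i j k : Fin a), x ≠ y ∧ x ≠ z ∧ y ≠ z ∧ Λ i = Ln.ver x ∧
    Λ j = Ln.ver y ∧ Λ k = Ln.ver z

lemma three (hn : 3 ≤ n) (t : ℂ) : ws n t 0 ≠ ws n t 1 ∧ ws n t 0 ≠ ws n t 2 ∧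
    ws n t 1 ≠ ws n t 2 := by
  have h : ∀ i j : ℕ, i < 3 → j < 3 → i ≠ j → ws n t i ≠ ws n t j := by
    intro i j hi hj hij h1
    unfold ws at h1
    rw [if_pos (by omega), if_pos (by omega)] at h1
    exact hij ((zt_prim (by omega)).pow_inj (by omega) (by omega) h1)
  exact ⟨h 0 1 (by omega) (by omega) (by omega), h 0 2 (by omega) (by omega) (by omega),
    h 1 2 (by omega) (by omega) (by omega)⟩

lemma not_deg (hn : 3 ≤ n) (hb : 3 ≤ b) (hΛ : Good n Λ) : ¬ IsDegenerate (Zp n b Λ t) := by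
  rintro ⟨φ, hφ, h⟩
  apply hφ
  have key : ∀ (i : Fin a) (l : ℕ), l < 3 → φ (lp (Λ i) 1 (ws n t l)) = 0 := by
    intro i l hl
    have h1 := h (Projectivization.mk ℂ (lp (Λ i) 1 (ws n t l)) (lp_ne_zero _ _))
      ⟨(i, ⟨l, by omega⟩), rfl⟩
    obtain ⟨c, hc, hr⟩ := rep_mk (lp_ne_zero (Λ i) (ws n t l))
    rw [hr, map_smul, smul_eq_mul] at h1
    exact (mul_eq_zero.mp h1).resolve_left hc
  have hlin : ∀ (L : Ln) (w : ℂ), φ (lp L 1 w) = φ (lp L 1 0) + w * φ (lp L 0 1) := by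
    intro L w
    have : lp L 1 w = lp L 1 0 + w • lp L 0 1 := by
      cases L <;> funext r <;> fin_cases r <;> simp [lp]
    rw [this, map_add, map_smul, smul_eq_mul]
  obtain ⟨h01, -, -⟩ := three hn t
  have d01 := sub_ne_zero.mpr h01
  have key2 : ∀ i : Fin a, φ (lp (Λ i) 1 0) = 0 ∧ φ (lp (Λ i) 0 1) = 0 := by
    intro i
    have e0 := key i 0 (by omega)
    have e1 := key i 1 (by omega)
    rw [hlin] at e0 e1
    have e2 : φ (lp (Λ i) 0 1) = 0 := by
      apply mul_left_cancel₀ d01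
      linear_combination e0 - e1
    rw [e2] at e0
    exact ⟨by linear_combination e0, e2⟩
  obtain ⟨i0, hi0⟩ := hΛ.cen
  obtain ⟨x, y, z, i, j, k, -, -, -, hi, -, -⟩ := hΛ.ver
  have hx : x ≠ 0 := by
    have h1 := hΛ.adm i
    rw [hi] at h1
    have h2 : x ^ n = 1 := h1
    rintro rfl
    rw [zero_pow (by omega)] at h2
    exact zero_ne_one h2
  obtain ⟨a0, a1⟩ := key2 i0
  obtain ⟨b0, b1⟩ := key2 i
  rw [hi0] at a0 a1
  rw [hi] at b0 b1
  have hφ4 : ∀ v : V4, φ v = v 0 * φ (Pi.single 0 1) + v 1 * φ (Pi.single 1 1) +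
      v 2 * φ (Pi.single 2 1) + v 3 * φ (Pi.single 3 1) := by
    intro v
    have : v = v 0 • (Pi.single 0 1 : V4) + v 1 • (Pi.single 1 1 : V4) +
        v 2 • (Pi.single 2 1 : V4) + v 3 • (Pi.single 3 1 : V4) := by
      funext r
      fin_cases r <;> simp
    conv_lhs => rw [this]
    simp only [map_add, map_smul, smul_eq_mul]
  rw [hφ4] at a0 a1 b0 b1
  simp [lp] at a0 a1 b0 b1
  rw [a0, zero_add] at b0
  rw [a1, mul_zero, zero_add] at b1
  have b0' := (mul_eq_zero.mp b0).resolve_left hx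
  apply LinearMap.ext
  intro v
  rw [hφ4 v, a0, a1, b0', b1]
  simp

lemma not_grid (hn : 3 ≤ n) (hb : 3 ≤ b) (hΛ : Good n Λ) : ¬ IsGrid (Zp n b Λ t) := by
  intro h
  obtain ⟨c, hc0, hc⟩ := grid_quad h
  apply hc0
  have key : ∀ (i : Fin a) (l : ℕ), l < 3 → quad c (lp (Λ i) 1 (ws n t l)) = 0 := by
    intro i l hl
    exact hc _ (lp_ne_zero _ _) ⟨(i, ⟨l, by omega⟩), rfl⟩
  obtain ⟨h01, h02, h12⟩ := three hn t
  obtain ⟨i0, hi0⟩ := hΛ.cen
  have hcen : c 0 = 0 ∧ -c 5 = 0 ∧ c 2 = 0 := by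
    apply quad3 h01 h02 h12
    · have := key i0 0 (by omega)
      rw [hi0] at this
      simp [quad, mon, Fin.sum_univ_succ, lp] at this
      linear_combination this
    · have := key i0 1 (by omega)
      rw [hi0] at this
      simp [quad, mon, Fin.sum_univ_succ, lp] at this
      linear_combination this
    · have := key i0 2 (by omega)
      rw [hi0] at this
      simp [quad, mon, Fin.sum_univ_succ, lp] at this
      linear_combination this
  obtain ⟨c0, c5, c2⟩ := hcen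
  have c5' : c 5 = 0 := neg_eq_zero.mp c5
  have hver : ∀ (x : ℂ) (i : Fin a), Λ i = Ln.ver x →
      (0 + x * c 4 + x ^ 2 * c 1 = 0) ∧ (c 6 + x * c 8 + x ^ 2 * c 7 = 0) ∧
      (c 3 + x * c 9 + x ^ 2 * 0 = 0) := by
    intro x i hi
    apply quad3 h01 h02 h12
    · have := key i 0 (by omega)
      rw [hi] at this
      simp [quad, mon, Fin.sum_univ_succ, lp, c0, c2, c5'] at this
      linear_combination this
    · have := key i 1 (by omega)
      rw [hi] at this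
      simp [quad, mon, Fin.sum_univ_succ, lp, c0, c2, c5'] at this
      linear_combination this
    · have := key i 2 (by omega)
      rw [hi] at this
      simp [quad, mon, Fin.sum_univ_succ, lp, c0, c2, c5'] at this
      linear_combination this
  obtain ⟨x, y, z, i, j, k, hxy, hxz, hyz, hi, hj, hk⟩ := hΛ.ver
  obtain ⟨p1, p2, p3⟩ := hver x i hi
  obtain ⟨q1, q2, q3⟩ := hver y j hj
  obtain ⟨r1, r2, r3⟩ := hver z k hk
  obtain ⟨-, s1, s2⟩ := quad3 hxy hxz hyz p1 q1 r1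
  obtain ⟨s3, s4, s5⟩ := quad3 hxy hxz hyz p2 q2 r2
  obtain ⟨s6, s7, -⟩ := quad3 hxy hxz hyz p3 q3 r3
  funext l
  fin_cases l <;> assumption

/-! ### Projective classes -/

lemma fix3 {h : V4 ≃ₗ[ℂ] V4} {w1 w2 w3 t t' l1 l2 l3 l4 : ℂ} (h12 : w1 ≠ w2) (h13 : w1 ≠ w3)
    (h23 : w2 ≠ w3)
    (e1 : h (lp Ln.cen 1 w1) = l1 • lp Ln.cen 1 w1)
    (e2 : h (lp Ln.cen 1 w2) = l2 • lp Ln.cen 1 w2)
    (e3 : h (lp Ln.cen 1 w3) = l3 • lp Ln.cen 1 w3)
    (e4 : h (lp Ln.cen 1 t) = l4 • lp Ln.cen 1 t') : t = t' := by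
  have hlin : ∀ w : ℂ, h (lp Ln.cen 1 w) = h (lp Ln.cen 1 0) + w • h (lp Ln.cen 0 1) := by
    intro w
    rw [← map_smul, ← map_add]
    congr 1
    funext r
    fin_cases r <;> simp [lp]
  rw [hlin] at e1 e2 e3 e4
  have hu0 : h (lp Ln.cen 1 0) ≠ 0 := fun h0 => lp_ne_zero _ _ (h.map_eq_zero_iff.mp h0)
  clear hlin
  generalize h (lp Ln.cen 1 0) = u at *
  generalize h (lp Ln.cen 0 1) = v at *
  have a1 := congrFun e1 0
  have a2 := congrFun e2 0
  have a3 := congrFun e3 0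
  have a4 := congrFun e4 0
  have b1 := congrFun e1 2
  have b2 := congrFun e2 2
  have b3 := congrFun e3 2
  have b4 := congrFun e4 2
  have g1 := congrFun e1 1
  have g2 := congrFun e2 1
  have k1 := congrFun e1 3
  have k2 := congrFun e2 3
  simp [lp] at a1 a2 a3 a4 b1 b2 b3 b4 g1 g2 k1 k2
  have key := quad3 (A := u 2) (B := u 0 + v 2) (C := v 0) h12 h13 h23
    (by linear_combination b1 + w1 * a1) (by linear_combination b2 + w2 * a2)
    (by linear_combination b3 + w3 * a3)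
  obtain ⟨z1, z2, z3⟩ := key
  have hl4 : l4 = u 0 := by rw [← a4, z3]; ring
  have hq : v 2 = -u 0 := by linear_combination z2
  rw [z1, hq, hl4] at b4
  have hp00 : u 0 ≠ 0 := by
    intro h0
    have d12 := sub_ne_zero.mpr h12
    have g3 : v 1 = 0 := by
      apply mul_left_cancel₀ d12
      linear_combination g1 - g2
    have g5 : u 1 = 0 := by
      rw [g3] at g1
      linear_combination g1
    have k3 : v 3 = 0 := by
      apply mul_left_cancel₀ d12
      linear_combination k1 - k2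
    have k5 : u 3 = 0 := by
      rw [k3] at k1
      linear_combination k1
    apply hu0
    funext r
    fin_cases r <;> assumption
  apply mul_left_cancel₀ hp00
  linear_combination -b4

lemma finite_class (hn : 3 ≤ n) (hb : 2 * n ≤ b) (hΛ : Good n Λ) (t0 : ℂ) :
    {t : ℂ | ProjectivelyEquivalent (Zp n b Λ t) (Zp n b Λ t0)}.Finite := by
  by_contra hcon
  set T : Set ℂ := {t : ℂ | ProjectivelyEquivalent (Zp n b Λ t) (Zp n b Λ t0)} with hT
  have hTinf : Infinite T := Set.infinite_coe_iff.mpr hcon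
  have hequiv : ∀ t : T, ∃ g : V4 ≃ₗ[ℂ] V4,
      Projectivization.map g.toLinearMap g.injective '' (Zp n b Λ (t : ℂ)) = Zp n b Λ t0 :=
    fun t => t.2
  choose g hg using hequiv
  obtain ⟨i0, hi0⟩ := hΛ.cen
  let idx : Fin 4 → Fin b := ![⟨0, by omega⟩, ⟨1, by omega⟩, ⟨2, by omega⟩, ⟨n, by omega⟩]
  have hidx : ∀ (t : T) (x : Fin 4), ∃ y : Fin a × Fin b, ∃ c : ℂ, c ≠ 0 ∧
      g t (lp Ln.cen 1 (ws n (t : ℂ) (idx x))) = c • lp (Λ y.1) 1 (ws n t0 y.2) := by
    intro t x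
    have h1 : g t (lp Ln.cen 1 (ws n (t : ℂ) (idx x))) ≠ 0 := by
      rw [Ne, (g t).map_eq_zero_iff]
      exact lp_ne_zero _ _
    have h2 : Projectivization.mk ℂ (g t (lp Ln.cen 1 (ws n (t : ℂ) (idx x)))) h1 ∈
        Zp n b Λ t0 := by
      rw [← hg t]
      refine ⟨_, ⟨(i0, idx x), rfl⟩, ?_⟩
      simp only [hi0]
      rfl
    obtain ⟨i, l, c, hc, h3⟩ := mem_Zp h1 h2
    exact ⟨(i, l), c, hc, h3⟩
  choose s c hc hs using hidx
  obtain ⟨t, t', htt, hst⟩ := Finite.exists_ne_map_eq_of_infinite s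
  apply htt
  apply Subtype.ext
  have hmap : ∀ x : Fin 4, (g t).trans (g t').symm (lp Ln.cen 1 (ws n (t : ℂ) (idx x))) =
      (c t x * (c t' x)⁻¹) • lp Ln.cen 1 (ws n (t' : ℂ) (idx x)) := by
    intro x
    have h1 : g t' ((c t x * (c t' x)⁻¹) • lp Ln.cen 1 (ws n (t' : ℂ) (idx x))) =
        g t (lp Ln.cen 1 (ws n (t : ℂ) (idx x))) := by
      rw [map_smul, hs, hs, hst, smul_smul, mul_assoc, inv_mul_cancel₀ (hc t' x), mul_one]
    rw [LinearEquiv.trans_apply, ← h1, LinearEquiv.symm_apply_apply]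
  have w0 : ∀ (r : ℂ) (l : ℕ), l < 3 → ws n r l = zt n ^ l := by
    intro r l hl
    unfold ws
    rw [if_pos (by omega)]
  have w3 : ∀ r : ℂ, ws n r n = r := by
    intro r
    unfold ws
    rw [if_neg (by omega), if_pos (by omega), (zt_prim (by omega)).pow_eq_one, mul_one]
  have e0 := hmap 0
  have e1 := hmap 1
  have e2 := hmap 2
  have e3 := hmap 3
  simp only [idx] at e0 e1 e2 e3
  change (g t).trans (g t').symm (lp Ln.cen 1 (ws n (t : ℂ) 0)) =
      _ • lp Ln.cen 1 (ws n (t' : ℂ) 0) at e0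
  change (g t).trans (g t').symm (lp Ln.cen 1 (ws n (t : ℂ) 1)) =
      _ • lp Ln.cen 1 (ws n (t' : ℂ) 1) at e1
  change (g t).trans (g t').symm (lp Ln.cen 1 (ws n (t : ℂ) 2)) =
      _ • lp Ln.cen 1 (ws n (t' : ℂ) 2) at e2
  change (g t).trans (g t').symm (lp Ln.cen 1 (ws n (t : ℂ) n)) =
      _ • lp Ln.cen 1 (ws n (t' : ℂ) n) at e3
  obtain ⟨h01, h02, h12⟩ := three hn (t : ℂ)
  rw [w0 _ 0 (by omega), w0 _ 1 (by omega)] at h01
  rw [w0 _ 0 (by omega), w0 _ 2 (by omega)] at h02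
  rw [w0 _ 1 (by omega), w0 _ 2 (by omega)] at h12
  rw [w0 _ 0 (by omega), w0 _ 0 (by omega)] at e0
  rw [w0 _ 1 (by omega), w0 _ 1 (by omega)] at e1
  rw [w0 _ 2 (by omega), w0 _ 2 (by omega)] at e2
  rw [w3, w3] at e3
  exact fix3 h01 h02 h12 e0 e1 e2 e3

/-- From finite classes to a large family. -/
lemma large {A : Type} (hA : #A = 𝔠) (f : A → Set P3)
    (hf : ∀ t0 : A, {t : A | Pool.Agent.Results.MP_586029_ag.GeprociMatroid.ProjectivelyEquivalent
      (f t) (f t0)}.Finite) :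
    ∃ T : Set (Set P3), #T = 𝔠 ∧ (∀ Z ∈ T, ∃ t, Z = f t) ∧
      ∀ Z ∈ T, ∀ Z' ∈ T, ProjectivelyEquivalent Z Z' → Z = Z' := by
  let S : Setoid A :=
    { r := fun t t' => ProjectivelyEquivalent (f t) (f t')
      iseqv := ⟨fun t => Pool.Agent.Y744.GP.pe_refl _, fun h => Pool.Agent.Y744.GP.pe_symm h,
        fun h h' => Pool.Agent.Y744.GP.pe_trans h h'⟩ }
  have hQ : 𝔠 ≤ #(Quotient S) := by
    by_contra hlt
    push Not at hlt
    have h1 : #A ≤ #(Quotient S) * ℵ₀ := by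
      apply mk_le_mk_mul_of_mk_preimage_le (Quotient.mk S)
      intro q
      obtain ⟨t0, rfl⟩ := Quotient.exists_rep q
      apply le_of_lt
      rw [lt_aleph0_iff_set_finite]
      refine (hf t0).subset ?_
      intro t ht
      have h3 : Quotient.mk S t = Quotient.mk S t0 := ht
      exact Quotient.exact h3
    have h2 := mul_lt_of_lt aleph0_le_continuum hlt aleph0_lt_continuum
    rw [hA] at h1
    exact absurd h1 (not_le.mpr h2)
  let F : Quotient S → Set P3 := fun q => f (Quotient.out q)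
  have hF : ∀ q q', ProjectivelyEquivalent (F q) (F q') → q = q' := by
    intro q q' h
    have h1 : Quotient.mk S (Quotient.out q) = Quotient.mk S (Quotient.out q') :=
      Quotient.sound h
    rwa [Quotient.out_eq, Quotient.out_eq] at h1
  have hFi : Function.Injective F := by
    intro q q' h
    apply hF
    rw [h]
    exact Pool.Agent.Y744.GP.pe_refl _
  refine ⟨Set.range F, ?_, ?_, ?_⟩
  · rw [mk_range_eq F hFi]
    apply le_antisymm _ hQ
    rw [← hA]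
    exact mk_quotient_le
  · rintro _ ⟨q, rfl⟩
    exact ⟨_, rfl⟩
  · rintro _ ⟨q, rfl⟩ _ ⟨q', rfl⟩ h
    rw [hF q q' h]

/-- admissible parameters -/
def Par (n : ℕ) : Type := {t : ℂ // t ≠ 0 ∧ t ^ n ≠ 1}

lemma mk_Par (hn : 0 < n) : #(Par n) = 𝔠 := by
  have hfin : ({t : ℂ | ¬ (t ≠ 0 ∧ t ^ n ≠ 1)} : Set ℂ).Finite := by
    refine ((Set.finite_singleton (0 : ℂ)).union (mu n).finite_toSet).subset ?_
    intro t ht
    simp only [Set.mem_ofPred_eq, not_and_or, not_not] at ht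
    rcases ht with h | h
    · exact Or.inl h
    · exact Or.inr ((mem_mu hn).mpr h)
  have h1 : #(({t : ℂ | ¬ (t ≠ 0 ∧ t ^ n ≠ 1)} : Set ℂ)ᶜ : Set ℂ) = #ℂ := by
    apply mk_compl_of_infinite
    rw [mk_complex]
    exact (lt_aleph0_iff_set_finite.mpr hfin).trans aleph0_lt_continuum
  rw [mk_complex] at h1
  rw [← h1]
  refine mk_congr (Equiv.subtypeEquivRight fun t => ?_)
  simp

theorem main (hn : 3 ≤ n) {ε : ℕ} (hε : ε ≤ 1) (hΛ : Good n Λ) (ha : 2 ≤ a) :
    ∃ T : Set (Set P3), #T = 𝔠 ∧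
      (∀ Z ∈ T, (Z.Finite ∧ Z.ncard = a * (2 * n + ε) ∧ ∃ D : MvPolynomial (Fin 4) ℂ, D ≠ 0 ∧
        ∀ P : V4, MvPolynomial.eval P D ≠ 0 → ∀ π : V4 →ₗ[ℂ] V3,
        LinearMap.ker π = Submodule.span ℂ {P} → CI a (2 * n + ε) (imageIdeal Z π)) ∧
        ¬ IsDegenerate Z ∧ ¬ IsGrid Z) ∧
      ∀ Z ∈ T, ∀ Z' ∈ T, ProjectivelyEquivalent Z Z' → Z = Z' := by
  obtain ⟨T, h1, h2, h3⟩ := large (mk_Par (n := n) (by omega))
    (fun t => Zp n (2 * n + ε) Λ t.1) (by
      intro t0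
      have h := (finite_class hn (b := 2 * n + ε) (by omega) hΛ t0.1).preimage
        (f := fun t : Par n => t.1) (Subtype.val_injective.injOn)
      exact h)
  refine ⟨T, h1, ?_, h3⟩
  intro Z hZ
  obtain ⟨t, rfl⟩ := h2 Z hZ
  refine ⟨⟨Set.finite_range _, ?_, ?_⟩, ?_, ?_⟩
  · exact ncard_Zp (by omega) (by omega) t.2.1 t.2.2 hΛ.inj hΛ.adm
  · obtain ⟨D, hD0, hD⟩ := gen_isGen (n := n) (by omega) ε t.2.1 hΛ.inj hΛ.adm
    exact ⟨D, hD0, fun P hP π hπ => geproci (by omega) t.2.1 hε t.2.2 ha hΛ.adm (hD P hP) hπ⟩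
  · exact not_deg hn (by omega) hΛ
  · exact not_grid hn (by omega) hΛ

/-! ### Configurations of lines -/

lemma good1 {m : ℕ} (hm : 3 ≤ m) (hmn : m ≤ n) :
    Good n (Fin.cons Ln.cen (fun j : Fin m => Ln.ver (zt n ^ (j : ℕ))) : Fin (m + 1) → Ln) := by
  have hinj : ∀ i j : Fin m, zt n ^ (i : ℕ) = zt n ^ (j : ℕ) → i = j := by
    intro i j h
    exact Fin.ext ((zt_prim (by omega)).pow_inj (by omega) (by omega) h)
  refine ⟨?_, ?_, ⟨0, rfl⟩, ?_⟩
  · rw [Fin.cons_injective_iff]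
    constructor
    · rintro ⟨j, hj⟩
      cases hj
    · intro i j h
      exact hinj i j (Ln.ver.inj h)
  · intro i
    refine Fin.cases trivial (fun j => ?_) i
    exact zt_pow (by omega) _
  · refine ⟨_, _, _, (⟨0, by omega⟩ : Fin m).succ, (⟨1, by omega⟩ : Fin m).succ,
      (⟨2, by omega⟩ : Fin m).succ, ?_, ?_, ?_, rfl, rfl, rfl⟩
    all_goals
      intro h
      have := hinj _ _ h
      simp at this

lemma good2 {m : ℕ} (hm : 3 ≤ m) (hmn : m ≤ n) (hev : Even n) :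
    Good n (Fin.cons Ln.cen (Fin.cons Ln.inf
      (fun j : Fin m => Ln.ver (zt n ^ (j : ℕ))) : Fin (m + 1) → Ln) : Fin (m + 2) → Ln) := by
  have hinj : ∀ i j : Fin m, zt n ^ (i : ℕ) = zt n ^ (j : ℕ) → i = j := by
    intro i j h
    exact Fin.ext ((zt_prim (by omega)).pow_inj (by omega) (by omega) h)
  refine ⟨?_, ?_, ⟨0, rfl⟩, ?_⟩
  · rw [Fin.cons_injective_iff, Fin.cons_injective_iff]
    refine ⟨?_, ?_, ?_⟩
    · rintro ⟨j, hj⟩
      revert hj
      refine Fin.cases (fun h => ?_) (fun j h => ?_) j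
      · cases h
      · cases h
    · rintro ⟨j, hj⟩
      cases hj
    · intro i j h
      exact hinj i j (Ln.ver.inj h)
  · intro i
    refine Fin.cases trivial (fun j => ?_) i
    refine Fin.cases hev (fun j => ?_) j
    exact zt_pow (by omega) _
  · refine ⟨_, _, _, (⟨0, by omega⟩ : Fin m).succ.succ, (⟨1, by omega⟩ : Fin m).succ.succ,
      (⟨2, by omega⟩ : Fin m).succ.succ, ?_, ?_, ?_, rfl, rfl, rfl⟩
    all_goals
      intro h
      have := hinj _ _ h
      simp at this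

end Pool.Agent.H72G
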